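import Pool.Agent.Lib.Helper86.StableBuilding.Example

/-!
# Rognes' question on the coinvariants of the top homology of the stable building: a negative
answer

For the Euclidean domain `R = ℚ[x, 1/(x² - 2)]` and `n = 2`, the coinvariants
`H_{2n-2}(𝐃(R^n))_{GL_n(R)}` contain an element of infinite order.
-/

set_option autoImplicit false

namespace Pool.Agent.Results.MP_89c978_gt.NotTorsion

open Pool.Agent.Lib.Helper86.StableBuilding

/-- There are a Euclidean domain `R` and `n ≥ 2` such that the coinvariants
`H_{2n-2}(𝐃(R^n))_{GL_n(R)}` contain an element of infinite order. -/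
theorem result :
    ∃ (R : Type) (_ : EuclideanDomain R) (n : ℕ), 2 ≤ n ∧
      ∃ x : GLCoinvariants R n (2 * n - 2), ∀ m : ℕ, 0 < m → m • x ≠ 0 := by
  have hpid : IsPrincipalIdealRing SRing :=
    @EuclideanDomain.to_principal_ideal_domain SRing (polyLocEuclidean sqTwo_irreducible)
  have h2 : (√2 : ℝ) ^ 2 = 2 := Real.sq_sqrt (by norm_num)
  have hr : ∀ c : ℝ, c ^ 2 = 2 → place c rElt ≠ 0 := by
    intro c hc
    apply place_ne_zero
    intro h
    have h1 := tame_value hc
    have hc1 : c ≠ 1 := by rintro rfl; norm_num at hc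
    have h3 := (place_linear c hc1).2
    change (place c rElt).leadingCoeff = c - 1 at h3
    rw [h, map_zero, HahnSeries.leadingCoeff_zero] at h3
    exact hc1 (by linarith)
  refine ⟨SRing, polyLocEuclidean sqTwo_irreducible, 2, le_rfl, ?_⟩
  exact exists_infinite_order_of_symbol tame_isSymbol (place √2) (place (-√2)) (eFun √2)
    (eFun (-√2)) (nonVan _) (nonVan _) (unitSym h2) rElt tElt (hr _ h2)
    (hr _ (by rw [neg_sq]; exact h2)) isUnit_one_sub_rt tame_ne

end Pool.Agent.Results.MP_89c978_gt.NotTorsion
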